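import Pool.Agent.Lib.MP_c5d73d_lc.I.ROStmt

/-!
# Regular open algebras: basic facts and consequences of the chain condition
-/

universe u

open Cardinal Set

namespace Pool.Agent.Lib.MP_c5d73d_lc.I.H74

open Pool.Agent.Lib.MP_100a6c_lc.H1 (RO)
open Pool.Agent.Lib.MP_c5d73d_lc

variable {P : Type u} [Preorder P]

lemma mem_compl' (a : LowerSet P) (p : P) : p ∈ aᶜ ↔ ∀ q ≤ p, q ∉ a := by
  constructor
  · intro hp q hq hqa
    have h1 : q ∈ (aᶜ ⊓ a : LowerSet P) := ⟨aᶜ.lower hq hp, hqa⟩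
    have h2 : (aᶜ ⊓ a : LowerSet P) = ⊥ := by
      rw [compl_inf_self]
    rw [h2] at h1
    exact h1
  · intro h
    have h1 : LowerSet.Iic p ≤ aᶜ := by
      rw [le_compl_iff_disjoint_right, disjoint_iff_inf_le]
      rintro q ⟨hq1, hq2⟩
      exact absurd hq2 (h q hq1)
    exact h1 (le_refl p)

lemma mem_compl2 (a : LowerSet P) (p : P) : p ∈ aᶜᶜ ↔ ∀ q ≤ p, ∃ r ≤ q, r ∈ a := by
  rw [mem_compl']
  constructor
  · intro h q hq
    by_contra hcon
    push Not at hcon
    exact h q hq ((mem_compl' a q).2 hcon)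
  · intro h q hq hqa
    obtain ⟨r, hr, hra⟩ := h q hq
    exact (mem_compl' a q).1 hqa r hr hra

lemma ro_dense (b : RO P) (p : P) (h : ∀ q ≤ p, ∃ r ≤ q, r ∈ (b : LowerSet P)) :
    p ∈ (b : LowerSet P) := by
  have h1 : ((b : LowerSet P))ᶜᶜ = (b : LowerSet P) := b.2
  rw [← h1, mem_compl2]
  exact h

lemma ro_le (b c : RO P) : b ≤ c ↔ ∀ p, p ∈ (b : LowerSet P) → p ∈ (c : LowerSet P) :=
  Iff.rfl

/-- The regular open set generated by a lower set. -/
lemma ro_exists (a : LowerSet P) :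
    ∃ b : RO P, ∀ p, p ∈ (b : LowerSet P) ↔ ∀ q ≤ p, ∃ r ≤ q, r ∈ a :=
  ⟨Heyting.Regular.toRegular a, fun p => mem_compl2 a p⟩

lemma ro_bot (p : P) : p ∉ ((⊥ : RO P) : LowerSet P) := fun h => h

lemma ro_facts (P : Type u) [Preorder P] : ROFacts P where
  dense := ro_dense
  le := ro_le
  top := fun p => trivial
  bot := by
    intro b
    constructor
    · rintro rfl p
      exact ro_bot p
    · intro h
      apply le_bot_iff.1
      rw [ro_le]
      intro p hp
      exact absurd hp (h p)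
  inf := fun b c p => Iff.rfl
  compl := fun b p => mem_compl' (b : LowerSet P) p
  iSup := by
    intro ι b p
    obtain ⟨c, hc⟩ := ro_exists (⨆ i, (b i : LowerSet P))
    have hc' : ∀ p, p ∈ (c : LowerSet P) ↔ ∀ q ≤ p, ∃ r ≤ q, ∃ i, r ∈ (b i : LowerSet P) := by
      intro p
      rw [hc]
      simp only [LowerSet.mem_iSup_iff]
    rw [← hc']
    have h1 : (⨆ i, b i) = c := by
      apply le_antisymm
      · apply iSup_le
        intro i
        rw [ro_le]
        intro p hp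
        rw [hc']
        intro q hq
        exact ⟨q, le_rfl, i, (b i : LowerSet P).lower hq hp⟩
      · rw [ro_le]
        intro p hp
        apply ro_dense
        intro q hq
        obtain ⟨r, hr, i, hi⟩ := (hc' p).1 hp q hq
        exact ⟨r, hr, (ro_le _ _).1 (le_iSup b i) r hi⟩
    rw [h1]
  hull := by
    intro S
    obtain ⟨c, hc⟩ := ro_exists (lowerClosure S)
    refine ⟨c, fun p => ?_⟩
    rw [hc]
    simp only [mem_lowerClosure]

theorem ro : ROStatement.{u} := fun P _ => ro_facts P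

lemma ro_ccc (hP : PCCC P) : T.CCC (RO P) := by
  classical
  intro A hA hpair
  have F := ro_facts P
  rcases isEmpty_or_nonempty P with hE | hN
  · have hA0 : A ⊆ {⊥} := by
      intro a ha
      exact (F.bot a).2 fun p => (hE.false p).elim
    exact (Set.countable_singleton _).mono hA0
  have hne : ∀ a ∈ A, ∃ p : P, p ∈ (a : LowerSet P) := by
    intro a ha
    by_contra hcon
    push Not at hcon
    exact hA a ha ((F.bot a).2 hcon)
  choose! f hf using hne
  have hdis : ∀ a ∈ A, ∀ b ∈ A, a ≠ b → ∀ p, p ∈ (a : LowerSet P) → p ∉ (b : LowerSet P) := by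
    intro a ha b hb hab p hpa hpb
    exact (F.bot (a ⊓ b)).1 (hpair ha hb hab) p ((F.inf a b p).2 ⟨hpa, hpb⟩)
  have hinj : Set.InjOn f A := by
    intro a ha b hb hab
    by_contra hne
    have h2 : f a ∈ (b : LowerSet P) := by
      rw [hab]
      exact hf b hb
    exact hdis a ha b hb hne (f a) (hf a ha) h2
  have hcount : (f '' A).Countable := by
    apply hP
    rintro _ ⟨a, ha, rfl⟩ _ ⟨b, hb, rfl⟩ hne ⟨r, hra, hrb⟩
    have hab : a ≠ b := fun h => hne (by rw [h])
    exact hdis a ha b hb hab r ((a : LowerSet P).lower hra (hf a ha))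
      ((b : LowerSet P).lower hrb (hf b hb))
  exact Set.countable_of_injective_of_countable_image hinj hcount

lemma ro_antichain (hP : PCCC P) (b : RO P) :
    ∃ S : Set P, S.Countable ∧ (∀ s ∈ S, s ∈ (b : LowerSet P)) ∧
      ∀ p ∈ (b : LowerSet P), ∃ r ≤ p, ∃ s ∈ S, r ≤ s := by
  classical
  obtain ⟨S, hS⟩ := zorn_subset
    {S : Set P | (∀ s ∈ S, s ∈ (b : LowerSet P)) ∧ S.Pairwise (fun p q => ¬ Compat p q)} (by
      intro c hc hchain
      refine ⟨⋃₀ c, ⟨?_, ?_⟩, fun s hs => Set.subset_sUnion_of_mem hs⟩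
      · rintro s ⟨t, ht, hst⟩
        exact (hc ht).1 s hst
      · rintro p ⟨t, ht, hpt⟩ q ⟨t', ht', hqt'⟩ hne
        rcases hchain.total ht ht' with h | h
        · exact (hc ht').2 (h hpt) hqt' hne
        · exact (hc ht).2 hpt (h hqt') hne)
  obtain ⟨⟨hS1, hS2⟩, hmax⟩ := hS
  refine ⟨S, hP S hS2, hS1, ?_⟩
  intro p hp
  by_contra hcon
  push Not at hcon
  have h1 : insert p S ⊆ S := by
    apply hmax _ (Set.subset_insert p S)
    refine ⟨?_, ?_⟩
    · rintro s (rfl | hs)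
      · exact hp
      · exact hS1 s hs
    · rintro x (rfl | hx) y (rfl | hy) hne
      · exact absurd rfl hne
      · rintro ⟨r, hr1, hr2⟩
        exact hcon r hr1 y hy hr2
      · rintro ⟨r, hr1, hr2⟩
        exact hcon r hr2 x hx hr1
      · exact hS2 hx hy hne
  exact hcon p le_rfl p (h1 (Set.mem_insert p S)) le_rfl

lemma ro_card (hP : PCCC P) (κ : Cardinal.{u}) (h1 : κ ^ (ℵ₀ : Cardinal.{u}) ≤ κ)
    (h2 : ℵ₀ ≤ κ) (h3 : #P ≤ κ) : #(RO P) ≤ κ := by
  choose S hS1 hS2 hS3 using ro_antichain (P := P) hP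
  have hmem : ∀ (b : RO P) (p : P), p ∈ (b : LowerSet P) ↔ ∀ q ≤ p, ∃ r ≤ q, ∃ s ∈ S b, r ≤ s := by
    intro b p
    constructor
    · intro hp q hq
      exact hS3 b q ((b : LowerSet P).lower hq hp)
    · intro h
      apply ro_dense
      intro q hq
      obtain ⟨r, hr, s, hs, hrs⟩ := h q hq
      exact ⟨r, hr, (b : LowerSet P).lower hrs (hS2 b s hs)⟩
  let g : RO P → {t : Set P // #t ≤ ℵ₀} := fun b => ⟨S b, Cardinal.le_aleph0_iff_set_countable.2 (hS1 b)⟩
  have hg : Function.Injective g := by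
    intro b c hbc
    have hbc' : S b = S c := congrArg Subtype.val hbc
    apply le_antisymm
    · rw [ro_le]
      intro p hp
      rw [hmem, ← hbc', ← hmem]
      exact hp
    · rw [ro_le]
      intro p hp
      rw [hmem, hbc', ← hmem]
      exact hp
  calc #(RO P) ≤ #{t : Set P // #t ≤ ℵ₀} := Cardinal.mk_le_of_injective hg
    _ ≤ (max #P ℵ₀) ^ (ℵ₀ : Cardinal.{u}) := Cardinal.mk_bounded_set_le P ℵ₀
    _ ≤ κ ^ (ℵ₀ : Cardinal.{u}) := Cardinal.power_le_power_right (max_le h3 h2)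
    _ ≤ κ := h1

theorem roc : ROCStatement.{u} := fun _ _ hP =>
  ⟨ro_ccc hP, ro_antichain hP, fun κ h1 h2 h3 => ro_card hP κ h1 h2 h3⟩

end Pool.Agent.Lib.MP_c5d73d_lc.I.H74
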